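import Pool.Agent.Y813.RL.Main
import Pool.Agent.Y813.RL.Comp

set_option autoImplicit false

open Pool.Agent.Y813.Refl

namespace Pool.Agent.Results.MP_f1d0b6_nt.ReflectiveGenus

/-- **Question Q1 of MP_f1d0b6_nt, answered in the affirmative.** Let `L` be an even positive
definite lattice of rank 20 (with Gram matrix `G`) such that `M = 2U + L(-1)` is reflective, with
respect to an arbitrary component of the domain. Then `L` lies in the genus of `2 E_8 + D_4`. -/
theorem result (G : Matrix (Fin 20) (Fin 20) ℤ) (hsymm : G.IsSymm) (heven : ∀ i, Even (G i i))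
    (hpos : ∀ x : Fin 20 → ℝ, x ≠ 0 → 0 < form G x x)
    (Z₀ : Fin 4 ⊕ Fin 20 → ℂ) (hZ₀ : Z₀ ∈ quadric (gramM G))
    (hrefl : IsReflectiveLattice (gramM G) (connectedComponentIn (quadric (gramM G)) Z₀)) :
    SameGenus G gramEED :=
  Pool.Agent.Y813.RL.genus_of_reflective ⟨hsymm, hpos⟩ heven
    (Pool.Agent.Y813.RL.reflective_component ⟨hsymm, hpos⟩ hZ₀ hrefl)

end Pool.Agent.Results.MP_f1d0b6_nt.ReflectiveGenus
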